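import Pool.Agent.Helper95.HS.GoalsA

/-! # HS, AYGB: the theorem of Aubin and Yau with a parameter -/

open Complex Metric Set Filter Topology MeasureTheory
open scoped ContDiff ComplexConjugate ComplexOrder Manifold Matrix

namespace Pool.Agent.Helper79.HS

open Pool.Agent.Helper95.Lin Pool.Agent.Helper16.Abund Pool.Agent.Helper10.SP
  Pool.Agent.Helper57.HS Pool.Agent.Helper95.HS

universe u v

lemma cd_cm {n : ℕ} (c : ℂ) (l : Fin n) (f : Cn n → ℂ) (x : Cn n) :
    cd l (fun y => c * f y) x = c * cd l f x := by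
  have h : fderiv ℝ (fun y => c * f y) x = c • fderiv ℝ f x := by
    have := congrFun (fderiv_const_smul_field (𝕜 := ℝ) (f := f) c) x
    simpa [Pi.smul_def, smul_eq_mul] using this
  unfold cd
  rw [h]
  simp only [_root_.smul_apply, smul_eq_mul]
  ring

lemma cdb_cm {n : ℕ} (c : ℂ) (l : Fin n) (f : Cn n → ℂ) (x : Cn n) :
    cdb l (fun y => c * f y) x = c * cdb l f x := by
  have h : fderiv ℝ (fun y => c * f y) x = c • fderiv ℝ f x := by
    have := congrFun (fderiv_const_smul_field (𝕜 := ℝ) (f := f) c) x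
    simpa [Pi.smul_def, smul_eq_mul] using this
  unfold cdb
  rw [h]
  simp only [_root_.smul_apply, smul_eq_mul]
  ring

lemma LM_cm {n : ℕ} (c : ℝ) (w : Cn n → ℝ) (x : Cn n) :
    LM (fun y => c * w y) x = (c : ℂ) • LM w x := by
  ext j k
  simp only [LM, Matrix.of_apply, Matrix.smul_apply, smul_eq_mul]
  have h : cdb k (fun y => (((c * w y : ℝ)) : ℂ)) = fun y => (c : ℂ) * cdb k (fun y => (w y : ℂ)) y := by
    funext y
    rw [← cdb_cm]
    congr 1
    funext z
    push_cast
    rfl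
  rw [h, cd_cm]

lemma hermi_smul {n : ℕ} (c : ℂ) (A : Matrix (Fin n) (Fin n) ℂ) (a b : Fin n → ℂ) :
    hermi (c • A) a b = c * hermi A a b := by
  simp only [hermi, Matrix.smul_apply, smul_eq_mul, Finset.mul_sum]
  refine Finset.sum_congr rfl fun i _ => Finset.sum_congr rfl fun j _ => ?_
  ring

/-- A positive multiple of an invariant Kähler metric. -/
lemma ket_smul {n : ℕ} {T : Set (Cn n)} {G : Type u} [Group G] {R : G → Cn n → Cn n → Prop}
    {H : Cn n → Matrix (Fin n) (Fin n) ℂ} (hK : KEt T R H) {β : ℝ} (hβ : 0 < β) :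
    KEt T R (fun x => (β : ℂ) • H x) where
  et := hK.et
  posDef := by
    intro x hx
    have := hK.posDef x hx
    have hβ' : (0 : ℂ) < (β : ℂ) := by exact_mod_cast hβ
    exact this.smul hβ'
  smooth := by
    intro i j
    have := (hK.smooth i j).const_smul (β : ℂ)
    simpa [Matrix.smul_apply] using this
  closed := by
    intro x hx i j l
    simp only [Matrix.smul_apply, smul_eq_mul]
    rw [cd_cm, cd_cm, hK.closed x hx i j l]
  inv := by
    intro U τ hA x hx a b
    rw [hermi_smul, hermi_smul, hK.inv U τ hA x hx a b]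

theorem aygb (hAYG : Pool.Agent.Helper57.HS.S_AYG.{u}) : S_AYGB.{u} := by
  intro n T G _ R H hK f hf β hβ
  have hβ0 : β ≠ 0 := hβ.ne'
  have hβc : (β : ℂ) ≠ 0 := by exact_mod_cast hβ0
  have hf' : InvF T R (fun x => f x + n * Real.log β) := by
    refine ⟨hf.1.add contDiffOn_const, fun γ x y h => ?_⟩
    show f y + n * Real.log β = f x + n * Real.log β
    rw [hf.2 γ x y h]
  obtain ⟨w, hw, hKw, hdet⟩ := hAYG T R H (fun x => (β : ℂ) • H x) hK (ket_smul hK hβ) _ hf'
  have hLM : ∀ x, LM (fun y => β⁻¹ * w y) x = ((β⁻¹ : ℝ) : ℂ) • LM w x := fun x => LM_cm _ _ x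
  have hmul : ∀ x, pert H (fun y => β⁻¹ * w y) x = ((β⁻¹ : ℝ) : ℂ) • ((β : ℂ) • H x + LM w x) := by
    intro x
    unfold pert
    rw [hLM, smul_add, smul_smul]
    have : (((β⁻¹ : ℝ)) : ℂ) * (β : ℂ) = 1 := by
      push_cast
      exact inv_mul_cancel₀ hβc
    rw [this, one_smul]
  have hβi : 0 < β⁻¹ := inv_pos.mpr hβ
  refine ⟨fun y => β⁻¹ * w y, ⟨⟨contDiffOn_const.mul hw.1, fun γ x y h => ?_⟩, ?_⟩, ?_⟩
  · show β⁻¹ * w y = β⁻¹ * w x
    rw [hw.2 γ x y h]
  · intro x hx
    rw [hmul]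
    have := hKw.posDef x hx
    have hβ' : (0 : ℂ) < ((β⁻¹ : ℝ) : ℂ) := by exact_mod_cast hβi
    exact this.smul hβ'
  · intro x hx
    have h1 : 0 < (H x).det.re := by
      have := (hK.posDef x hx).det_pos
      exact (Complex.pos_iff.mp this).1
    have h2 := hdet x hx
    have h3 : (pert H (fun y => β⁻¹ * w y) x).det.re =
        (β⁻¹) ^ n * (Real.exp (w x + (f x + n * Real.log β)) * (H x).det.re) := by
      rw [hmul, Matrix.det_smul, Fintype.card_fin, ← h2]
      have : (((β⁻¹ : ℝ)) : ℂ) ^ n = (((β⁻¹) ^ n : ℝ) : ℂ) := by push_cast; rfl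
      rw [this, Complex.re_ofReal_mul]
    unfold ld
    rw [h3, Real.log_mul (pow_pos hβi n).ne' (mul_pos (Real.exp_pos _) h1).ne',
      Real.log_mul (Real.exp_pos _).ne' h1.ne', Real.log_exp, Real.log_pow, Real.log_inv]
    field_simp
    ring

end Pool.Agent.Helper79.HS
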