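import Pool.Agent.Helper45.HS.GoalsC

/-! # HS, IPB: bounds for the pairing of endomorphism valued forms -/

open Complex Metric Set Filter Topology MeasureTheory
open scoped ContDiff ComplexConjugate ComplexOrder Manifold Matrix

namespace Pool.Agent.Helper79.HS

open Pool.Agent.Helper95.Lin Pool.Agent.Helper57.HS Pool.Agent.Helper45.HS

section lin

variable {n : ℕ}

open scoped MatrixOrder in
lemma psd_sqrt {A : Matrix (Fin n) (Fin n) ℂ} (hA : A.PosSemidef) :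
    ∃ S : Matrix (Fin n) (Fin n) ℂ, A = Sᴴ * S := by
  obtain ⟨S, hS⟩ := CStarAlgebra.nonneg_iff_eq_star_mul_self.mp hA.nonneg
  exact ⟨S, hS⟩

lemma inv_anti {A B : Matrix (Fin n) (Fin n) ℂ} (hA : A.PosDef) (hB : B.PosDef)
    (h : (B - A).PosSemidef) : (A⁻¹ - B⁻¹).PosSemidef := by
  have hA1 : A⁻¹.PosDef := hA.inv
  have hB1 : B⁻¹.PosDef := hB.inv
  have hAu : IsUnit A.det := (posDef_det hA).isUnit
  have hBu : IsUnit B.det := (posDef_det hB).isUnit
  have h1 : ((B - A) * A⁻¹ * (B - A)).PosSemidef := by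
    have := hA1.posSemidef.mul_mul_conjTranspose_same (B - A)
    rwa [h.isHermitian.eq] at this
  have h2 : ((B - A) + (B - A) * A⁻¹ * (B - A)).PosSemidef := h.add h1
  have h3 := h2.mul_mul_conjTranspose_same B⁻¹
  rw [hB1.isHermitian.eq] at h3
  have e1 : (B - A) + (B - A) * A⁻¹ * (B - A) = B * A⁻¹ * B - B := by
    rw [Matrix.sub_mul B A A⁻¹, Matrix.mul_nonsing_inv A hAu, Matrix.sub_mul, Matrix.mul_sub,
      Matrix.mul_assoc B A⁻¹ A, Matrix.nonsing_inv_mul A hAu, Matrix.mul_one, Matrix.one_mul]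
    abel
  have e2 : B⁻¹ * (B * A⁻¹ * B - B) * B⁻¹ = A⁻¹ - B⁻¹ := by
    rw [Matrix.mul_sub, Matrix.nonsing_inv_mul B hBu, Matrix.mul_assoc B, ← Matrix.mul_assoc B⁻¹,
      Matrix.nonsing_inv_mul B hBu, Matrix.one_mul, Matrix.sub_mul, Matrix.one_mul,
      Matrix.mul_assoc, Matrix.mul_nonsing_inv B hBu, Matrix.mul_one]
  rw [e1, e2] at h3
  exact h3

lemma trace_mul_psd {A C : Matrix (Fin n) (Fin n) ℂ} (hA : A.PosSemidef) (hC : C.PosSemidef) :
    0 ≤ (Matrix.trace (A * C)).re := by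
  obtain ⟨S, rfl⟩ := psd_sqrt hC
  rw [← Matrix.mul_assoc, Matrix.trace_mul_comm, ← Matrix.mul_assoc]
  have := (hA.mul_mul_conjTranspose_same S).trace_nonneg
  exact (Complex.nonneg_iff.mp this).1

/-- The form `∑ B l k tr (X_k Y X_lᴴ C)`. -/
noncomputable def ff (B Y C : Matrix (Fin n) (Fin n) ℂ) (X : Fin n → Matrix (Fin n) (Fin n) ℂ) :
    ℂ := ∑ k, ∑ l, B l k * Matrix.trace (X k * Y * (X l)ᴴ * C)

lemma ff_nonneg {B Y C : Matrix (Fin n) (Fin n) ℂ} (hB : B.PosSemidef) (hY : Y.PosSemidef)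
    (hC : C.PosSemidef) (X : Fin n → Matrix (Fin n) (Fin n) ℂ) : 0 ≤ (ff B Y C X).re := by
  obtain ⟨S, rfl⟩ := psd_sqrt hB
  have h : ff (Sᴴ * S) Y C X = ∑ a, Matrix.trace ((∑ k, S a k • X k) * Y * (∑ k, S a k • X k)ᴴ * C) := by
    unfold ff
    have e : ∀ a, Matrix.trace ((∑ k, S a k • X k) * Y * (∑ k, S a k • X k)ᴴ * C) =
        ∑ k, ∑ l, (conj (S a l) * S a k) * Matrix.trace (X k * Y * (X l)ᴴ * C) := by
      intro a
      rw [Matrix.conjTranspose_sum, Finset.sum_mul, Finset.sum_mul, Finset.sum_mul,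
        Matrix.trace_sum]
      refine Finset.sum_congr rfl fun k _ => ?_
      rw [Finset.mul_sum, Finset.sum_mul, Matrix.trace_sum]
      refine Finset.sum_congr rfl fun l _ => ?_
      rw [Matrix.conjTranspose_smul]
      simp only [Matrix.smul_mul, Matrix.mul_smul, Matrix.trace_smul, smul_eq_mul]
      simp only [Complex.star_def]
      ring
    simp only [e]
    symm
    rw [Finset.sum_comm]
    refine Finset.sum_congr rfl fun k _ => ?_
    rw [Finset.sum_comm]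
    refine Finset.sum_congr rfl fun l _ => ?_
    rw [Matrix.mul_apply, Finset.sum_mul]
    rfl
  rw [h, Complex.re_sum]
  exact Finset.sum_nonneg fun a _ => trace_mul_psd (hY.mul_mul_conjTranspose_same _) hC

lemma ff_sub1 (B B' Y C : Matrix (Fin n) (Fin n) ℂ) (X : Fin n → Matrix (Fin n) (Fin n) ℂ) :
    ff (B - B') Y C X = ff B Y C X - ff B' Y C X := by
  unfold ff
  simp only [Matrix.sub_apply, sub_mul, Finset.sum_sub_distrib]

lemma ff_sub2 (B Y Y' C : Matrix (Fin n) (Fin n) ℂ) (X : Fin n → Matrix (Fin n) (Fin n) ℂ) :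
    ff B (Y - Y') C X = ff B Y C X - ff B Y' C X := by
  unfold ff
  simp only [Matrix.sub_mul, Matrix.trace_sub, mul_sub, Finset.sum_sub_distrib]

lemma ff_sub3 (B Y C C' : Matrix (Fin n) (Fin n) ℂ) (X : Fin n → Matrix (Fin n) (Fin n) ℂ) :
    ff B Y (C - C') X = ff B Y C X - ff B Y C' X := by
  unfold ff
  simp only [mul_sub, Matrix.trace_sub, Finset.sum_sub_distrib]

lemma ff_smul2 (c : ℂ) (B Y C : Matrix (Fin n) (Fin n) ℂ) (X : Fin n → Matrix (Fin n) (Fin n) ℂ) :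
    ff B (c • Y) C X = c * ff B Y C X := by
  unfold ff
  simp only [Matrix.mul_smul, Matrix.smul_mul, Matrix.trace_smul, smul_eq_mul, Finset.mul_sum]
  refine Finset.sum_congr rfl fun k _ => Finset.sum_congr rfl fun l _ => ?_
  ring

/-- Entries of a positive semidefinite matrix. -/
lemma psd_entry {M : Matrix (Fin n) (Fin n) ℂ} (hM : M.PosSemidef) {c : ℝ}
    (h : ∀ i, (M i i).re ≤ c) : EB M c := by
  intro i j
  obtain ⟨S, rfl⟩ := psd_sqrt hM
  have hii : ∀ i, ((Sᴴ * S) i i).re = ∑ a, ‖S a i‖ ^ 2 := by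
    intro i
    rw [Matrix.mul_apply, Complex.re_sum]
    refine Finset.sum_congr rfl fun a _ => ?_
    rw [Matrix.conjTranspose_apply, Complex.star_def, mul_comm, Complex.mul_conj,
      Complex.ofReal_re, Complex.normSq_eq_norm_sq]
  have h1 : ‖(Sᴴ * S) i j‖ ≤ ∑ a, ‖S a i‖ * ‖S a j‖ := by
    rw [Matrix.mul_apply]
    refine (norm_sum_le _ _).trans (le_of_eq ?_)
    refine Finset.sum_congr rfl fun a _ => ?_
    rw [norm_mul, Matrix.conjTranspose_apply, norm_star]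
  have h2 : ∑ a, ‖S a i‖ * ‖S a j‖ ≤ (∑ a, ‖S a i‖ ^ 2 + ∑ a, ‖S a j‖ ^ 2) / 2 := by
    rw [← Finset.sum_add_distrib, Finset.sum_div]
    refine Finset.sum_le_sum fun a _ => ?_
    nlinarith [sq_nonneg (‖S a i‖ - ‖S a j‖)]
  have h3 := h i
  have h4 := h j
  rw [hii] at h3 h4
  linarith

lemma EB_mul {A B : Matrix (Fin n) (Fin n) ℂ} {a b : ℝ} (ha : 0 ≤ a) (hA : EB A a)
    (hB : EB B b) : EB (A * B) (n * a * b) := by
  intro i j
  rw [Matrix.mul_apply]
  refine (norm_sum_le _ _).trans ?_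
  calc ∑ k, ‖A i k * B k j‖ ≤ ∑ _k : Fin n, a * b := by
        refine Finset.sum_le_sum fun k _ => ?_
        rw [norm_mul]
        exact mul_le_mul (hA i k) (hB k j) (norm_nonneg _) ha
    _ = n * a * b := by simp; ring

lemma EB_conj {A : Matrix (Fin n) (Fin n) ℂ} {a : ℝ} (hA : EB A a) : EB Aᴴ a := by
  intro i j
  rw [Matrix.conjTranspose_apply, norm_star]
  exact hA j i

lemma EB_trace {A : Matrix (Fin n) (Fin n) ℂ} {a : ℝ} (hA : EB A a) :
    ‖Matrix.trace A‖ ≤ n * a := by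
  unfold Matrix.trace
  refine (norm_sum_le _ _).trans ?_
  calc ∑ k, ‖Matrix.diag A k‖ ≤ ∑ _k : Fin n, a := Finset.sum_le_sum fun k _ => hA k k
    _ = n * a := by simp

/-- `A ≤ n a` for a Hermitian matrix with entries bounded by `a`. -/
lemma EB_le {A : Matrix (Fin n) (Fin n) ℂ} {a : ℝ} (hh : A.IsHermitian) (hA : EB A a) :
    ((((n : ℝ) * a : ℝ) : ℂ) • (1 : Matrix (Fin n) (Fin n) ℂ) - A).PosSemidef := by
  refine Matrix.PosSemidef.of_dotProduct_mulVec_nonneg ?_ fun x => ?_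
  · refine Matrix.IsHermitian.sub ?_ hh
    unfold Matrix.IsHermitian
    rw [Matrix.conjTranspose_smul, Matrix.conjTranspose_one, Complex.star_def, Complex.conj_ofReal]
  · have hr : (star x ⬝ᵥ (A *ᵥ x)).im = 0 := hh.im_star_dotProduct_mulVec_self x
    have hx : star x ⬝ᵥ x = ((∑ i, ‖x i‖ ^ 2 : ℝ) : ℂ) := by
      simp only [dotProduct, Pi.star_apply, Complex.star_def]
      push_cast
      refine Finset.sum_congr rfl fun i _ => ?_
      rw [mul_comm, Complex.mul_conj, Complex.normSq_eq_norm_sq]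
      push_cast
      rfl
    have hb : (star x ⬝ᵥ (A *ᵥ x)).re ≤ n * a * ∑ i, ‖x i‖ ^ 2 := by
      have h1 : (star x ⬝ᵥ (A *ᵥ x)).re ≤ ∑ i, ∑ j, ‖x i‖ * (a * ‖x j‖) := by
        refine (Complex.re_le_norm _).trans ?_
        unfold dotProduct
        refine (norm_sum_le _ _).trans ?_
        refine Finset.sum_le_sum fun i _ => ?_
        rw [norm_mul, Pi.star_apply, norm_star, ← Finset.mul_sum]
        refine mul_le_mul_of_nonneg_left ?_ (norm_nonneg _)
        unfold Matrix.mulVec dotProduct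
        refine (norm_sum_le _ _).trans ?_
        refine Finset.sum_le_sum fun j _ => ?_
        rw [norm_mul]
        exact mul_le_mul_of_nonneg_right (hA i j) (norm_nonneg _)
      have h2 : ∑ i, ∑ j, ‖x i‖ * (a * ‖x j‖) = a * (∑ i, ‖x i‖) ^ 2 := by
        rw [sq, Finset.sum_mul_sum, Finset.mul_sum]
        refine Finset.sum_congr rfl fun i _ => ?_
        rw [Finset.mul_sum]
        refine Finset.sum_congr rfl fun j _ => ?_
        ring
      rcases isEmpty_or_nonempty (Fin n) with he | he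
      · simp [dotProduct]
      · have ha : 0 ≤ a := (norm_nonneg _).trans (hA he.some he.some)
        have h3 := sq_sum_le_card_mul_sum_sq (s := Finset.univ) (f := fun i => ‖x i‖)
        simp only [Finset.card_univ, Fintype.card_fin] at h3
        calc (star x ⬝ᵥ (A *ᵥ x)).re ≤ a * (∑ i, ‖x i‖) ^ 2 := h1.trans h2.le
          _ ≤ a * (n * ∑ i, ‖x i‖ ^ 2) := mul_le_mul_of_nonneg_left h3 ha
          _ = n * a * ∑ i, ‖x i‖ ^ 2 := by ring
    rw [Matrix.sub_mulVec, dotProduct_sub, Matrix.smul_mulVec, Matrix.one_mulVec, dotProduct_smul,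
      hx, Complex.nonneg_iff]
    constructor
    · rw [Complex.sub_re, smul_eq_mul, Complex.re_ofReal_mul, Complex.ofReal_re]
      linarith
    · rw [Complex.sub_im, hr, smul_eq_mul, Complex.im_ofReal_mul, Complex.ofReal_im]
      simp

/-- The lower bound for a positive definite matrix from a bound of the inverse. -/
lemma low_bd {A : Matrix (Fin n) (Fin n) ℂ} {s : ℝ} (hn : 0 < n) (hA : A.PosDef) (hs : 0 < s)
    (h : EB A⁻¹ s) : (A - ((((n : ℝ) * s)⁻¹ : ℝ) : ℂ) • (1 : Matrix (Fin n) (Fin n) ℂ)).PosSemidef := by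
  have h1 := EB_le hA.inv.isHermitian h
  have hns : 0 < (n : ℝ) * s := by positivity
  have hp : ((((n : ℝ) * s : ℝ) : ℂ) • (1 : Matrix (Fin n) (Fin n) ℂ)).PosDef :=
    Matrix.PosDef.one.smul (by exact_mod_cast hns)
  have h2 := inv_anti hA.inv hp h1
  rw [Matrix.nonsing_inv_nonsing_inv _ (posDef_det hA).isUnit] at h2
  have h3 : ((((n : ℝ) * s : ℝ) : ℂ) • (1 : Matrix (Fin n) (Fin n) ℂ))⁻¹ =
      ((((n : ℝ) * s)⁻¹ : ℝ) : ℂ) • (1 : Matrix (Fin n) (Fin n) ℂ) := by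
    apply Matrix.inv_eq_right_inv
    rw [Matrix.smul_mul, Matrix.one_mul, smul_smul, ← Complex.ofReal_mul, mul_inv_cancel₀ hns.ne',
      Complex.ofReal_one, one_smul]
  rw [h3] at h2
  exact h2

lemma ff_one (r : ℝ) (X : Fin n → Matrix (Fin n) (Fin n) ℂ) :
    (ff ((r : ℂ) • 1) ((r : ℂ) • 1) ((r : ℂ) • 1) X).re = r ^ 3 * ∑ k, ∑ i, ∑ j, ‖X k i j‖ ^ 2 := by
  have h : ff ((r : ℂ) • 1) ((r : ℂ) • 1) ((r : ℂ) • 1) X =
      ((r ^ 3 * ∑ k, ∑ i, ∑ j, ‖X k i j‖ ^ 2 : ℝ) : ℂ) := by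
    unfold ff
    rw [Finset.mul_sum, Complex.ofReal_sum]
    refine Finset.sum_congr rfl fun k _ => ?_
    rw [Finset.sum_eq_single k]
    · rw [Matrix.smul_apply, Matrix.one_apply_eq, Matrix.mul_smul, Matrix.mul_one,
        Matrix.mul_smul, Matrix.mul_one, Matrix.smul_mul, smul_smul, Matrix.trace_smul]
      have e : Matrix.trace (X k * (X k)ᴴ) = ((∑ i, ∑ j, ‖X k i j‖ ^ 2 : ℝ) : ℂ) := by
        rw [Complex.ofReal_sum]
        unfold Matrix.trace
        refine Finset.sum_congr rfl fun i _ => ?_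
        rw [Matrix.diag_apply, Matrix.mul_apply, Complex.ofReal_sum]
        refine Finset.sum_congr rfl fun j _ => ?_
        rw [Matrix.conjTranspose_apply, Complex.star_def, Complex.mul_conj,
          Complex.normSq_eq_norm_sq]
      rw [e]
      simp only [smul_eq_mul]
      push_cast
      ring
    · intro l _ hl
      rw [Matrix.smul_apply, Matrix.one_apply_ne hl, smul_zero, zero_mul]
    · intro hk
      exact absurd (Finset.mem_univ k) hk
  rw [h, Complex.ofReal_re]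

end lin

theorem ipb : S_IPB := by
  intro n κ hκ
  have hn0 : (0 : ℝ) ≤ n := Nat.cast_nonneg n
  have hκ0 : 0 < κ := by linarith
  have hn6 : (1 : ℝ) ≤ ((n : ℝ) + 1) ^ 6 := one_le_pow₀ (by linarith)
  have hk3 : (1 : ℝ) ≤ κ ^ 3 := one_le_pow₀ hκ
  refine ⟨((n : ℝ) + 1) ^ 6 * κ ^ 3, ?_, ?_⟩
  · nlinarith
  intro Λ H Q hΛ hH hQ hHk hHik hHQ hQH
  have hΛ0 : 0 < Λ := by linarith
  have hΛκ : 0 < Λ * κ := mul_pos hΛ0 hκ0
  have hQe : EB Q (Λ * κ) := by
    refine psd_entry hQ.posSemidef fun i => ?_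
    have h := (show ((Λ : ℂ) • H - Q).PosSemidef from hQH).diag_nonneg (i := i)
    have h' := (Complex.nonneg_iff.mp h).1
    rw [Matrix.sub_apply, Matrix.smul_apply, Complex.sub_re, smul_eq_mul,
      Complex.re_ofReal_mul] at h'
    have h2 : (H i i).re ≤ κ := (Complex.re_le_norm _).trans (hHk i i)
    nlinarith
  have hLQ : ((Λ : ℂ) • Q).PosDef := hQ.smul (by exact_mod_cast hΛ0)
  have hinv := inv_anti hH hLQ hHQ
  have hLQi : ((Λ : ℂ) • Q)⁻¹ = ((Λ⁻¹ : ℝ) : ℂ) • Q⁻¹ := by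
    apply Matrix.inv_eq_right_inv
    rw [Matrix.smul_mul, Matrix.mul_smul, smul_smul, Matrix.mul_nonsing_inv _
      (posDef_det hQ).isUnit, ← Complex.ofReal_mul, mul_inv_cancel₀ hΛ0.ne', Complex.ofReal_one,
      one_smul]
  have hQie : EB Q⁻¹ (Λ * κ) := by
    refine psd_entry hQ.inv.posSemidef fun i => ?_
    have h := hinv.diag_nonneg (i := i)
    have h' := (Complex.nonneg_iff.mp h).1
    rw [hLQi, Matrix.sub_apply, Matrix.smul_apply, Complex.sub_re, smul_eq_mul,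
      Complex.re_ofReal_mul] at h'
    have h2 : (H⁻¹ i i).re ≤ κ := (Complex.re_le_norm _).trans (hHik i i)
    have h3 : (Q⁻¹ i i).re = Λ * (Λ⁻¹ * (Q⁻¹ i i).re) := by
      rw [← mul_assoc, mul_inv_cancel₀ hΛ0.ne', one_mul]
    rw [h3]
    exact mul_le_mul_of_nonneg_left (by linarith) hΛ0.le
  have hcc : Λ * κ ≤ ((n : ℝ) + 1) ^ 6 * κ ^ 3 * Λ := by
    have h1 : κ ≤ κ ^ 3 := le_self_pow₀ hκ (by norm_num)
    have h2 : κ ^ 3 ≤ ((n : ℝ) + 1) ^ 6 * κ ^ 3 := le_mul_of_one_le_left (by positivity) hn6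
    nlinarith
  refine ⟨fun i j => (hQe i j).trans hcc, fun i j => (hQie i j).trans hcc, ?_, ?_⟩
  · intro X Y a b ha hb hX hY
    unfold ipA
    refine (norm_sum_le _ _).trans ?_
    have hterm : ∀ k l, ‖Q⁻¹ l k * Matrix.trace (X k * Q * (Y l)ᴴ * Q⁻¹)‖ ≤
        (Λ * κ) * (n * (n * (n * (n * a * (Λ * κ)) * b) * (Λ * κ))) := by
      intro k l
      rw [norm_mul]
      have h1 := EB_mul ha (hX k) hQe
      have h2 := EB_mul (by positivity) h1 (EB_conj (hY l))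
      have h3 := EB_mul (by positivity) h2 hQie
      exact mul_le_mul (hQie l k) (EB_trace h3) (norm_nonneg _) hΛκ.le
    calc ∑ k, ‖∑ l, Q⁻¹ l k * Matrix.trace (X k * Q * (Y l)ᴴ * Q⁻¹)‖
        ≤ ∑ _k : Fin n, ∑ _l : Fin n,
          (Λ * κ) * (n * (n * (n * (n * a * (Λ * κ)) * b) * (Λ * κ))) :=
          Finset.sum_le_sum fun k _ => (norm_sum_le _ _).trans
            (Finset.sum_le_sum fun l _ => hterm k l)
      _ = (n : ℝ) ^ 6 * (κ ^ 3 * Λ ^ 3 * a * b) := by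
          simp only [Finset.sum_const, Finset.card_univ, Fintype.card_fin, nsmul_eq_mul]
          ring
      _ ≤ ((n : ℝ) + 1) ^ 6 * (κ ^ 3 * Λ ^ 3 * a * b) := by
          refine mul_le_mul_of_nonneg_right ?_ (by positivity)
          exact pow_le_pow_left₀ hn0 (by linarith) 6
      _ = ((n : ℝ) + 1) ^ 6 * κ ^ 3 * Λ ^ 3 * a * b := by ring
  · intro X
    constructor
    · intro k i j
      have hn : 0 < n := lt_of_le_of_lt (Nat.zero_le _) k.2
      have hnr : (0 : ℝ) < n := by exact_mod_cast hn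
      set r : ℝ := ((n : ℝ) * (Λ * κ))⁻¹ with hr
      have hr0 : 0 < r := inv_pos.mpr (mul_pos hnr hΛκ)
      have hQl := low_bd hn hQ hΛκ hQie
      have hQil := low_bd hn hQ.inv hΛκ (by
        rw [Matrix.nonsing_inv_nonsing_inv _ (posDef_det hQ).isUnit]; exact hQe)
      rw [← hr] at hQl hQil
      have hr1 : ((r : ℂ) • (1 : Matrix (Fin n) (Fin n) ℂ)).PosSemidef :=
        Matrix.PosSemidef.one.smul (by exact_mod_cast hr0.le)
      have g1 := ff_nonneg hQil hQ.posSemidef hQ.inv.posSemidef X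
      have g2 := ff_nonneg hr1 hQl hQ.inv.posSemidef X
      have g3 := ff_nonneg hr1 hr1 hQil X
      rw [ff_sub1, Complex.sub_re] at g1
      rw [ff_sub2, Complex.sub_re] at g2
      rw [ff_sub3, Complex.sub_re, ff_one] at g3
      have g4 : (ff Q⁻¹ Q Q⁻¹ X).re = (ipA Q X X).re := rfl
      have g5 : ‖X k i j‖ ^ 2 ≤ ∑ k, ∑ i, ∑ j, ‖X k i j‖ ^ 2 := by
        have e1 : ‖X k i j‖ ^ 2 ≤ ∑ j, ‖X k i j‖ ^ 2 :=
          Finset.single_le_sum (f := fun j => ‖X k i j‖ ^ 2) (fun _ _ => by positivity)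
            (Finset.mem_univ j)
        have e2 : ∑ j, ‖X k i j‖ ^ 2 ≤ ∑ i, ∑ j, ‖X k i j‖ ^ 2 :=
          Finset.single_le_sum (f := fun i => ∑ j, ‖X k i j‖ ^ 2) (fun _ _ => by positivity)
            (Finset.mem_univ i)
        have e3 : ∑ i, ∑ j, ‖X k i j‖ ^ 2 ≤ ∑ k, ∑ i, ∑ j, ‖X k i j‖ ^ 2 :=
          Finset.single_le_sum (f := fun k => ∑ i, ∑ j, ‖X k i j‖ ^ 2) (fun _ _ => by positivity)
            (Finset.mem_univ k)
        exact e1.trans (e2.trans e3)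
      set SS : ℝ := ∑ k, ∑ i, ∑ j, ‖X k i j‖ ^ 2 with hSS
      have g6 : r ^ 3 * SS ≤ (ipA Q X X).re := by
        rw [← g4]; linarith
      have g7 : ((n : ℝ) * (Λ * κ)) ^ 3 * (r ^ 3 * SS) = SS := by
        rw [← mul_assoc, ← mul_pow, hr, mul_inv_cancel₀ (mul_pos hnr hΛκ).ne', one_pow, one_mul]
      have g8 : 0 ≤ (ipA Q X X).re := by
        have : 0 ≤ r ^ 3 * SS := by
          have : 0 ≤ SS := by rw [hSS]; positivity
          positivity
        linarith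
      calc ‖X k i j‖ ^ 2 ≤ SS := g5
        _ = ((n : ℝ) * (Λ * κ)) ^ 3 * (r ^ 3 * SS) := g7.symm
        _ ≤ ((n : ℝ) * (Λ * κ)) ^ 3 * (ipA Q X X).re :=
          mul_le_mul_of_nonneg_left g6 (by positivity)
        _ = (n : ℝ) ^ 3 * (κ ^ 3 * Λ ^ 3 * (ipA Q X X).re) := by ring
        _ ≤ ((n : ℝ) + 1) ^ 6 * (κ ^ 3 * Λ ^ 3 * (ipA Q X X).re) := by
          refine mul_le_mul_of_nonneg_right ?_ (by positivity)
          calc (n : ℝ) ^ 3 ≤ ((n : ℝ) + 1) ^ 3 := pow_le_pow_left₀ hn0 (by linarith) 3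
            _ ≤ ((n : ℝ) + 1) ^ 6 := pow_le_pow_right₀ (by linarith) (by norm_num)
        _ = ((n : ℝ) + 1) ^ 6 * κ ^ 3 * Λ ^ 3 * (ipA Q X X).re := by ring
    · have h := ff_nonneg hQ.inv.posSemidef (show ((Λ : ℂ) • H - Q).PosSemidef from hQH)
        hQ.inv.posSemidef X
      rw [ff_sub2, ff_smul2, Complex.sub_re, Complex.re_ofReal_mul] at h
      have h1 : (ff Q⁻¹ Q Q⁻¹ X).re = (ipA Q X X).re := rfl
      have h2 : (ff Q⁻¹ H Q⁻¹ X).re =
        (∑ k, ∑ l, Q⁻¹ l k * Matrix.trace (X k * H * (X l)ᴴ * Q⁻¹)).re := rfl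
      rw [h1, h2] at h
      linarith

end Pool.Agent.Helper79.HS
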