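import Pool.Agent.Helper95.HS.GoalsB
import Pool.Agent.Helper15.HS.GoalsC
import Pool.Agent.Helper45.HS.MatC
import Pool.Agent.Helper95.Lin.Basics

/-! # HS, CLP: the Chern-Lu identity for a parallel endomorphism field -/

open Complex Metric Set Filter Topology MeasureTheory
open scoped ContDiff ComplexConjugate ComplexOrder Manifold Matrix

namespace Pool.Agent.Helper79.HS

open Pool.Agent.Helper95.Lin Pool.Agent.Helper16.Abund Pool.Agent.Helper10.SP
  Pool.Agent.Helper57.HS Pool.Agent.Helper95.HS Pool.Agent.Helper45.HS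

/-- The trace of the product of two Hermitian matrices is real. -/
lemma trace_mul_real {n : ℕ} {A B : Matrix (Fin n) (Fin n) ℂ} (hA : A.IsHermitian)
    (hB : B.IsHermitian) : (((Matrix.trace (A * B)).re : ℝ) : ℂ) = Matrix.trace (A * B) := by
  rw [← Complex.conj_eq_iff_re]
  have h := Matrix.trace_conjTranspose (A * B)
  rw [Matrix.conjTranspose_mul, hA.eq, hB.eq, Matrix.trace_mul_comm] at h
  exact h.symm

lemma crvP_eq {n : ℕ} (H : Cn n → Matrix (Fin n) (Fin n) ℂ) (x : Cn n)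
    (D : Fin n → Fin n → Matrix (Fin n) (Fin n) ℂ)
    (hD : ∀ i j k l, crv H x i j k l = (- D k l * H x) i j) (X Y : Matrix (Fin n) (Fin n) ℂ) :
    crvP H X Y x = - ∑ k, ∑ l, Y l k * Matrix.trace (X * (D k l * H x)) := by
  have h1 : crvP H X Y x = ∑ k, ∑ l, ∑ i, ∑ j, X j i * Y l k * crv H x i j k l := by
    unfold crvP
    calc (∑ i, ∑ j, ∑ k, ∑ l, X j i * Y l k * crv H x i j k l)
        = ∑ i, ∑ k, ∑ j, ∑ l, X j i * Y l k * crv H x i j k l :=
          Finset.sum_congr rfl fun i _ => Finset.sum_comm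
      _ = ∑ k, ∑ i, ∑ j, ∑ l, X j i * Y l k * crv H x i j k l := Finset.sum_comm
      _ = ∑ k, ∑ i, ∑ l, ∑ j, X j i * Y l k * crv H x i j k l :=
          Finset.sum_congr rfl fun k _ => Finset.sum_congr rfl fun i _ => Finset.sum_comm
      _ = ∑ k, ∑ l, ∑ i, ∑ j, X j i * Y l k * crv H x i j k l :=
          Finset.sum_congr rfl fun k _ => Finset.sum_comm
  rw [h1, ← Finset.sum_neg_distrib]
  refine Finset.sum_congr rfl fun k _ => ?_
  rw [← Finset.sum_neg_distrib]
  refine Finset.sum_congr rfl fun l _ => ?_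
  have h2 : Matrix.trace (X * (D k l * H x)) = ∑ j, ∑ i, X j i * (D k l * H x) i j := by
    simp only [Matrix.trace, Matrix.diag_apply, Matrix.mul_apply (M := X)]
  rw [h2, Finset.sum_comm, Finset.mul_sum, ← Finset.sum_neg_distrib]
  refine Finset.sum_congr rfl fun j _ => ?_
  rw [Finset.mul_sum, ← Finset.sum_neg_distrib]
  refine Finset.sum_congr rfl fun i _ => ?_
  rw [hD, Matrix.neg_mul, Matrix.neg_apply]
  ring

theorem clp (hCRV : Pool.Agent.Helper95.HS.S_CRV) (hCLG : Pool.Agent.Helper15.HS.S_CLG) :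
    S_CLP := by
  intro n W hW H Q P hH hHp hQ hQp hP
  obtain ⟨hCs, hGs, hrs, hCr, hHx⟩ := hCRV W hW H hH hHp
  have hPs : SmM P W := fun i j => holo_contDiffOn_real hW (hP.holo i j)
  have hHs : SmM H W := hH.smooth
  have hQs : SmM Q W := hQ.smooth
  have hYs : SmM (fun x => P x * H x) W := hPs.mul hHs
  have hYh : ∀ x ∈ W, (P x * H x).IsHermitian := by
    intro x hx
    unfold Matrix.IsHermitian
    rw [Matrix.conjTranspose_mul, (hH.herm x hx).eq, hP.herm x hx]
  have hYd : ∀ x ∈ W, ∀ k, cdM k (fun y => P y * H y) x = Gam H k x * (P x * H x) := by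
    intro x hx k
    rw [cdM_mul hW hx hPs hHs, hP.par x hx k, (hHx x hx).2.1 k]
    noncomm_ring
  have hmain := hCLG W hW Q (fun x => P x * H x) (fun x => Q x - rho Q x) (fun k => Gam H k) hQ hQp
    (fun x hx => by simp) hYs hYh hGs hYd
  have hreal : ∀ x ∈ W, ((trP P H Q x : ℝ) : ℂ) = Matrix.trace (P x * H x * (Q x)⁻¹) := by
    intro x hx
    exact trace_mul_real (hYh x hx) (hQ.herm x hx).inv
  have hsm : ContDiffOn ℝ ∞ (trP P H Q) W := by
    have h1 : ContDiffOn ℝ ∞ (fun x => Matrix.trace (P x * H x * (Q x)⁻¹)) W :=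
      (hYs.mul (hQs.inv fun x hx => posDef_det (hQp x hx))).trace
    exact Complex.reCLM.contDiff.comp_contDiffOn h1
  refine ⟨hsm, fun x hx => ⟨hreal x hx, fun k => ?_, ?_⟩⟩
  · rw [(cd_congr' hW hx hreal k).1]
    rw [cd_trace hW hx (hYs.mul (hQs.inv fun x hx => posDef_det (hQp x hx))) k,
      (hmain x hx).1 k]
    unfold Adf
    rw [Matrix.trace_sub, Matrix.sub_mul, Matrix.sub_mul, Matrix.trace_sub,
      Matrix.trace_mul_comm (P x * H x * (Q x)⁻¹) (Gam Q k x)]
    simp only [Matrix.mul_assoc]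
    ring
  · have h4 := (hmain x hx).2.2.2
    have h5 : trL Q (trP P H Q) x = trL Q (fun y => (Matrix.trace (P y * H y * (Q y)⁻¹)).re) x :=
      rfl
    rw [h5, h4]
    -- the commutation with `P`
    have hPb : ∀ l, ∀ y ∈ W, cdbM l P y = 0 := by
      intro l y hy
      ext i j
      have := ((Wirt.wirt W hW _ _ (hPs i j) (hPs i j)).2.2.2.2.2).2 (hP.holo i j) l y hy
      simpa [cdbM] using this
    have hcom : ∀ k l, cdbM l (Gam H k) x * P x = P x * cdbM l (Gam H k) x := by
      intro k l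
      have hG : SmM (Gam H k) W := hGs k
      have e1 : cdbM l (cdM k P) x = 0 := by
        rw [← cdM_cdbM hW hx hPs k l, cdM_congr (Y := fun _ => 0) hW hx (hPb l) k, cdM_const]
      have e2 : cdbM l (cdM k P) x = cdbM l (fun y => Gam H k y * P y - P y * Gam H k y) x :=
        cdbM_congr hW hx (fun y hy => hP.par y hy k) l
      rw [cdbM_sub hW hx (hG.mul hPs) (hPs.mul hG), cdbM_mul hW hx hG hPs, cdbM_mul hW hx hPs hG,
        hPb l x hx, e1] at e2
      simp only [Matrix.mul_zero, Matrix.zero_mul, add_zero, zero_add] at e2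
      exact (sub_eq_zero.mp e2.symm)
    have hcrv := crvP_eq H x (fun k l => cdbM l (Gam H k) x) (fun i j k l =>
      (hHx x hx).2.2.2.1 i j k l) ((Q x)⁻¹ * P x) (Q x)⁻¹
    rw [hcrv]
    have h6 : ∀ k l, Matrix.trace ((Q x)⁻¹ * P x * (cdbM l (Gam H k) x * H x)) =
        Matrix.trace (cdbM l (Gam H k) x * (P x * H x) * (Q x)⁻¹) := by
      intro k l
      rw [Matrix.mul_assoc, Matrix.trace_mul_comm, ← Matrix.mul_assoc (P x), ← hcom k l]
      simp only [Matrix.mul_assoc]
    simp only [h6]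
    have h7 : Matrix.trace ((Q x - rho Q x) * (Q x)⁻¹ * (P x * H x) * (Q x)⁻¹) =
        Matrix.trace ((P x * H x) * (Q x)⁻¹) -
        Matrix.trace (rho Q x * (Q x)⁻¹ * (P x * H x) * (Q x)⁻¹) := by
      rw [Matrix.sub_mul, Matrix.sub_mul, Matrix.sub_mul, Matrix.trace_sub,
        Matrix.mul_nonsing_inv _ (posDef_det (hQp x hx)).isUnit, Matrix.one_mul]
    rw [h7]
    unfold AAP Adf
    ring

end Pool.Agent.Helper79.HS
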